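import Mathlib

/-!
The number of the integers which are divisible exactly once by no large prime number (helper file).
-/

set_option autoImplicit false

namespace Pool.Agent.R424.PT

/-- No prime number larger than `P₀` divides `u` exactly once. -/
def NoSimple (P₀ u : ℕ) : Prop := ∀ p : ℕ, p.Prime → P₀ < p → p ∣ u → p ^ 2 ∣ u

theorem decomp {P₀ u : ℕ} (hu : 0 < u) (h : NoSimple P₀ u) :
    ∃ s ⊆ Finset.range (P₀ + 1), ∃ b a : ℕ, 0 < b ∧ 0 < a ∧ u = (∏ p ∈ s, p) * b ^ 3 * a ^ 2 ∧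
      0 < ∏ p ∈ s, p := by
  classical
  obtain ⟨d, c, hcd, hd⟩ := Nat.sq_mul_squarefree u
  have hc0 : 0 < c := by
    rcases Nat.eq_zero_or_pos c with h0 | h0
    · rw [h0] at hcd
      simp at hcd
      omega
    · exact h0
  let s : Finset ℕ := d.primeFactors.filter fun p => p ≤ P₀
  let s' : Finset ℕ := d.primeFactors.filter fun p => ¬ p ≤ P₀
  have hprod : (∏ p ∈ s, p) * ∏ p ∈ s', p = d := by
    rw [Finset.prod_filter_mul_prod_filter_not]
    exact Nat.prod_primeFactors_of_squarefree hd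
  have hdvd : (∏ p ∈ s', p) ∣ c := by
    refine Finset.prod_primes_dvd c (fun p hp => ?_) fun p hp => ?_
    · exact (Nat.prime_of_mem_primeFactors (Finset.mem_filter.1 hp).1).prime
    · obtain ⟨h1, h2⟩ := Finset.mem_filter.1 hp
      have hpp := Nat.prime_of_mem_primeFactors h1
      have hpd := Nat.dvd_of_mem_primeFactors h1
      have h3 : p ∣ u := by
        rw [← hcd]
        exact hpd.mul_left _
      have h4 := h p hpp (not_le.1 h2) h3
      by_contra hpc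
      have hcop : Nat.Coprime (p ^ 2) (c ^ 2) := Nat.Coprime.pow 2 2 ((hpp.coprime_iff_not_dvd).2 hpc)
      rw [← hcd] at h4
      have h5 : p ^ 2 ∣ d := hcop.dvd_of_dvd_mul_left h4
      have h6 := hd p (by rwa [pow_two] at h5)
      exact hpp.one_lt.ne' (Nat.isUnit_iff.1 h6)
  obtain ⟨a, ha⟩ := hdvd
  have hpos : ∀ t : Finset ℕ, t ⊆ d.primeFactors → 0 < ∏ p ∈ t, p := fun t ht =>
    Finset.prod_pos fun p hp => (Nat.prime_of_mem_primeFactors (ht hp)).pos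
  refine ⟨s, fun p hp => ?_, ∏ p ∈ s', p, a, hpos s' (Finset.filter_subset _ _), ?_, ?_,
    hpos s (Finset.filter_subset _ _)⟩
  · rw [Finset.mem_range]
    have := (Finset.mem_filter.1 hp).2
    omega
  · rcases Nat.eq_zero_or_pos a with h0 | h0
    · rw [h0, mul_zero] at ha
      omega
    · exact h0
  · calc u = c ^ 2 * d := hcd.symm
      _ = ((∏ p ∈ s', p) * a) ^ 2 * ((∏ p ∈ s, p) * ∏ p ∈ s', p) := by rw [← ha, hprod]
      _ = _ := by ring

/-- There are `O(√X)` such numbers up to `X`. -/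
theorem count (P₀ : ℕ) : ∃ C : ℝ, 0 < C ∧ ∀ X : ℕ,
    ((((Finset.Icc 1 X).filter fun u => ∀ p ∈ Finset.range (X + 1), p.Prime → P₀ < p → p ∣ u →
      p ^ 2 ∣ u).card : ℕ) : ℝ) ≤ C * Real.sqrt X := by
  classical
  have hsum : Summable fun n : ℕ => 1 / (n : ℝ) ^ (3 / 2 : ℝ) :=
    Real.summable_one_div_nat_rpow.2 (by norm_num)
  set K : ℝ := ∑' n : ℕ, 1 / (n : ℝ) ^ (3 / 2 : ℝ) with hK
  have hK0 : 0 ≤ K := tsum_nonneg fun n => by positivity
  refine ⟨2 ^ (P₀ + 1) * (K + 1), by positivity, fun X => ?_⟩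
  let A : Finset ℕ := (Finset.Icc 1 X).filter fun u => ∀ p ∈ Finset.range (X + 1), p.Prime →
    P₀ < p → p ∣ u → p ^ 2 ∣ u
  let B : Finset (Σ _ : ℕ, ℕ) := (Finset.Icc 1 X).sigma fun b => Finset.Icc 1 (Nat.sqrt (X / b ^ 3))
  have hAB : A ⊆ ((Finset.range (P₀ + 1)).powerset ×ˢ B).image
      fun x => (∏ p ∈ x.1, p) * x.2.1 ^ 3 * x.2.2 ^ 2 := by
    intro u hu
    obtain ⟨h1, h2⟩ := Finset.mem_filter.1 hu
    obtain ⟨h3, h4⟩ := Finset.mem_Icc.1 h1
    have hno : NoSimple P₀ u := by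
      intro p hp hP hpu
      refine h2 p ?_ hp hP hpu
      rw [Finset.mem_range]
      have := Nat.le_of_dvd (by omega) hpu
      omega
    obtain ⟨s, hs, b, a, hb, ha, hu', hs0⟩ := decomp (by omega) hno
    have h5 : b ^ 3 * a ^ 2 ≤ X := by
      calc b ^ 3 * a ^ 2 ≤ (∏ p ∈ s, p) * (b ^ 3 * a ^ 2) := Nat.le_mul_of_pos_left _ hs0
        _ = u := by rw [hu', mul_assoc]
        _ ≤ X := h4
    have hb3 : 0 < b ^ 3 := pow_pos hb 3
    have ha2 : 0 < a ^ 2 := pow_pos ha 2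
    refine Finset.mem_image.2 ⟨(s, ⟨b, a⟩), Finset.mem_product.2 ⟨Finset.mem_powerset.2 hs,
      Finset.mem_sigma.2 ⟨Finset.mem_Icc.2 ⟨hb, ?_⟩, Finset.mem_Icc.2 ⟨ha, ?_⟩⟩⟩, hu'.symm⟩
    · change b ≤ X
      have h6 : b ≤ b ^ 3 := Nat.le_self_pow (by norm_num) b
      have h7 : b ^ 3 ≤ b ^ 3 * a ^ 2 := Nat.le_mul_of_pos_right _ ha2
      omega
    · change a ≤ Nat.sqrt (X / b ^ 3)
      rw [Nat.le_sqrt', Nat.le_div_iff_mul_le hb3]
      calc a ^ 2 * b ^ 3 = b ^ 3 * a ^ 2 := mul_comm _ _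
        _ ≤ X := h5
  have hB : ((B.card : ℕ) : ℝ) ≤ K * Real.sqrt X := by
    have h1 : ((B.card : ℕ) : ℝ) = ∑ b ∈ Finset.Icc 1 X, ((Nat.sqrt (X / b ^ 3) : ℕ) : ℝ) := by
      rw [Finset.card_sigma]
      push_cast
      refine Finset.sum_congr rfl fun b _ => ?_
      rw [Nat.card_Icc, Nat.add_sub_cancel]
    rw [h1]
    calc ∑ b ∈ Finset.Icc 1 X, ((Nat.sqrt (X / b ^ 3) : ℕ) : ℝ)
        ≤ ∑ b ∈ Finset.Icc 1 X, 1 / (b : ℝ) ^ (3 / 2 : ℝ) * Real.sqrt X := by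
          refine Finset.sum_le_sum fun b hb => ?_
          have hb1 : 1 ≤ b := (Finset.mem_Icc.1 hb).1
          have hbR : (0 : ℝ) < b := by exact_mod_cast hb1
          have h2 : ((Nat.sqrt (X / b ^ 3) : ℕ) : ℝ) ≤ Real.sqrt ((X / b ^ 3 : ℕ) : ℝ) :=
            Real.nat_sqrt_le_real_sqrt
          have h3 : ((X / b ^ 3 : ℕ) : ℝ) ≤ (X : ℝ) / (b : ℝ) ^ 3 := by
            have := Nat.cast_div_le (α := ℝ) (m := X) (n := b ^ 3)
            push_cast at this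
            exact this
          have h4 : Real.sqrt ((X : ℝ) / (b : ℝ) ^ 3) = Real.sqrt X / (b : ℝ) ^ (3 / 2 : ℝ) := by
            rw [Real.sqrt_div (Nat.cast_nonneg X)]
            congr 1
            rw [Real.sqrt_eq_rpow, ← Real.rpow_natCast, ← Real.rpow_mul hbR.le]
            norm_num
          calc ((Nat.sqrt (X / b ^ 3) : ℕ) : ℝ) ≤ Real.sqrt ((X : ℝ) / (b : ℝ) ^ 3) :=
                h2.trans (Real.sqrt_le_sqrt h3)
            _ = 1 / (b : ℝ) ^ (3 / 2 : ℝ) * Real.sqrt X := by rw [h4]; ring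
      _ = (∑ b ∈ Finset.Icc 1 X, 1 / (b : ℝ) ^ (3 / 2 : ℝ)) * Real.sqrt X := by
          rw [Finset.sum_mul]
      _ ≤ K * Real.sqrt X := by
          refine mul_le_mul_of_nonneg_right ?_ (Real.sqrt_nonneg _)
          exact hsum.sum_le_tsum _ fun n _ => by positivity
  have hcard : A.card ≤ 2 ^ (P₀ + 1) * B.card := by
    calc A.card ≤ _ := Finset.card_le_card hAB
      _ ≤ ((Finset.range (P₀ + 1)).powerset ×ˢ B).card := Finset.card_image_le
      _ = 2 ^ (P₀ + 1) * B.card := by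
          rw [Finset.card_product, Finset.card_powerset, Finset.card_range]
  calc ((A.card : ℕ) : ℝ) ≤ ((2 ^ (P₀ + 1) * B.card : ℕ) : ℝ) := by exact_mod_cast hcard
    _ = 2 ^ (P₀ + 1) * (B.card : ℝ) := by push_cast; rfl
    _ ≤ 2 ^ (P₀ + 1) * (K * Real.sqrt X) := by gcongr
    _ ≤ 2 ^ (P₀ + 1) * (K + 1) * Real.sqrt X := by
        rw [mul_assoc]
        have h1 : K * Real.sqrt X ≤ (K + 1) * Real.sqrt X := by
          refine mul_le_mul_of_nonneg_right (by linarith) (Real.sqrt_nonneg _)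
        gcongr

end Pool.Agent.R424.PT
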