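import Pool.Agent.R424.PT.Crit
import Pool.Agent.W282.SI.Good

/-!
The tropical local criterion for Pink's conjecture in the powers of elliptic schemes (helper file).
-/

set_option autoImplicit false

namespace Pool.Agent.R424.PT

open MvPolynomial Pool.Agent.R424.TG Pool.Agent.W282.ZP
open Pool.Agent.Results.MP_28d749_ag.RandomMultisections (curve xCoord EndRing InSubgroup)

/-- The coordinates of a point of the `q`-th fibre power: the coefficients `a`, `b` of the elliptic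
curve, `r` further coordinates of the base, and the abscissas of the `q` points of the curve. -/
abbrev Coord (r q : ℕ) : Type := (Fin 2 ⊕ Fin r) ⊕ Fin q

variable {κ I : Type} {r q N : ℕ}

/-- The coordinates `(a, b, s_1, …, s_r, x(P_1), …, x(P_q))` of the point `(P_1, …, P_q)` of the fibre at
the point `s = (a, b, s_1, …, s_r)` of the base. -/
def point (s : Fin 2 ⊕ Fin r → ℂ)
    (P : Fin q → (curve (s (Sum.inl 0)) (s (Sum.inl 1))).Point) : Coord r q → ℂ :=
  Sum.elim s fun l => xCoord (P l)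

/-- The set `X` of the system of equations `∑_β c j β z^β = 0` in the `q`-th fibre power: the points
`(P_1, …, P_q)` of the smooth fibres, different from the origin, such that for some `y ∈ ℂ^N` the
equations hold for `z = (a, b, s, x(P), y)`. -/
def OnX (supp : κ → Finset ((Coord r q ⊕ Fin N) →₀ ℕ))
    (c : κ → ((Coord r q ⊕ Fin N) →₀ ℕ) → ℂ) (s : Fin 2 ⊕ Fin r → ℂ)
    (P : Fin q → (curve (s (Sum.inl 0)) (s (Sum.inl 1))).Point) : Prop :=
  4 * s (Sum.inl 0) ^ 3 + 27 * s (Sum.inl 1) ^ 2 ≠ 0 ∧ (∀ l, P l ≠ 0) ∧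
    ∃ y : Fin N → ℂ, ∀ j, ∑ β ∈ supp j, c j β * ∏ i, Sum.elim (point s P) y i ^ β i = 0

/-- `X` has no intersection of too large dimension with the algebraic subgroups of the fibres, if it
is regarded as a set of dimension `m`: for every `ρ` every point of `X` which is in an algebraic
subgroup of codimension at least `ρ` of its fibre has transcendence degree at most `m - ρ`, and every
irreducible closed set `W` of the coordinate space, such that its points outside of some hypersurface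
`g = 0`, which does not contain `W`, are points of this kind, has dimension at most `m - ρ`. -/
def NoAtypicalP (m : ℕ) (X : ∀ s : Fin 2 ⊕ Fin r → ℂ,
    (Fin q → (curve (s (Sum.inl 0)) (s (Sum.inl 1))).Point) → Prop) : Prop :=
  ∀ ρ : ℕ,
    (∀ s P, X s P → InSubgroup P ρ → ∀ T : Finset (Coord r q),
      AlgebraicIndependent ℚ (fun i : T => point s P i) → T.card + ρ ≤ m) ∧
    ∀ (W : Set (Coord r q → ℂ)) (g : MvPolynomial (Coord r q) ℂ),
      (∀ w ∈ W, eval w g ≠ 0 → ∃ s P, w = point s P ∧ X s P ∧ InSubgroup P ρ) →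
      zcl W ⊆ W → (idealOf W).IsPrime → g ∉ idealOf W →
      zdim W + (ρ : Cardinal) ≤ (m : Cardinal)

/-- The number `c` has the order `e` at all places of `ℂ` above `p`. -/
def OrdAt (p : ℕ) (c : ℂ) (e : ℕ) : Prop :=
  ∀ V : ValuationSubring ℂ, (p : ℂ) ∈ V.nonunits → V.valuation c = V.valuation (p : ℂ) ^ e

/-- For a point `w` of the tropicalization: there are more than `q - ρ` of the points `P_j` near to the
origin of the curve, `w(x_j) + 1/2 < μ` with `2 μ ≤ w(a)`, `3 μ ≤ w(b)`, such that the differences of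
the values of their abscissas are not integers. -/
def Independent (ρ : ℕ) (w : Coord r q ⊕ Fin N → WithTop ℚ) : Prop :=
  ∃ (J : Finset (Fin q)) (μ : ℚ) (x : Fin q → ℚ), q < J.card + ρ ∧
    ((2 * μ : ℚ) : WithTop ℚ) ≤ w (Sum.inl (Sum.inl (Sum.inl 0))) ∧
    ((3 * μ : ℚ) : WithTop ℚ) ≤ w (Sum.inl (Sum.inl (Sum.inl 1))) ∧
    (∀ j ∈ J, w (Sum.inl (Sum.inr j)) = (x j : WithTop ℚ) ∧ x j + 1 / 2 < μ) ∧
    ∀ i ∈ J, ∀ j ∈ J, i ≠ j → ∀ k : ℤ, x i - x j ≠ k

/-- The condition on the tropicalizations: for every set `T` of coordinates and every `ρ` with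
`|T| + ρ = m + 1` there is a place `l` and there are values `τ` for the coordinates in `T` such that all
points of the tropicalization at `l` with these values are independent. -/
def GenericP (m : ℕ) (supp : κ → Finset ((Coord r q ⊕ Fin N) →₀ ℕ))
    (e : I → κ → ((Coord r q ⊕ Fin N) →₀ ℕ) → ℕ) : Prop :=
  ∀ (ρ : ℕ) (T : Finset (Coord r q)), T.card + ρ = m + 1 → ∃ (l : I) (τ : Coord r q → ℚ),
    ∀ w : Coord r q ⊕ Fin N → WithTop ℚ, (∀ j, TropAt (supp j) (e l j) w) →
      (∀ i ∈ T, w (Sum.inl i) = (τ i : WithTop ℚ)) → Independent ρ w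

theorem inSubgroup_mono {a b : ℂ} {P : Fin q → (curve a b).Point} {ρ ρ' : ℕ} (h : InSubgroup P ρ)
    (hle : ρ' ≤ ρ) : InSubgroup P ρ' := by
  obtain ⟨E, c, hc, hrel⟩ := h
  exact ⟨E, fun i => c (Fin.castLE hle i), hc.comp _ (Fin.castLE_injective hle), fun i => hrel _⟩

/-- The bound for points. -/
theorem point_bound (m : ℕ) (supp : κ → Finset ((Coord r q ⊕ Fin N) →₀ ℕ))
    (c : κ → ((Coord r q ⊕ Fin N) →₀ ℕ) → ℂ) (e : I → κ → ((Coord r q ⊕ Fin N) →₀ ℕ) → ℕ)
    (hgen : GenericP m supp e) (p : I → ℕ) (hp : ∀ l, (p l).Prime)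
    (he : ∀ l j, ∀ β ∈ supp j, OrdAt (p l) (c j β) (e l j β)) {s : Fin 2 ⊕ Fin r → ℂ}
    {P : Fin q → (curve (s (Sum.inl 0)) (s (Sum.inl 1))).Point} (hX : OnX supp c s P) {ρ : ℕ}
    (hρ : InSubgroup P ρ) (T : Finset (Coord r q))
    (hT : AlgebraicIndependent ℚ (fun i : T => point s P i)) : T.card + ρ ≤ m := by
  classical
  by_contra hcon
  push Not at hcon
  obtain ⟨hdisc, hP0, y, hy⟩ := hX
  -- smaller `T` and `ρ`
  obtain ⟨T', ρ', hT', hρ', hcard⟩ : ∃ (T' : Finset (Coord r q)) (ρ' : ℕ), T' ⊆ T ∧ ρ' ≤ ρ ∧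
      T'.card + ρ' = m + 1 := by
    by_cases h : m + 1 ≤ T.card
    · obtain ⟨T', h1, h2⟩ := Finset.exists_subset_card_eq h
      exact ⟨T', 0, h1, Nat.zero_le _, by omega⟩
    · exact ⟨T, m + 1 - T.card, subset_rfl, by omega, by omega⟩
  obtain ⟨l, τ, hτ⟩ := hgen ρ' T' hcard
  have hT'' : AlgebraicIndependent ℚ (fun i : T' => point s P i) :=
    hT.comp (fun i : T' => (⟨i, hT' i.2⟩ : T)) fun i j h =>
      Subtype.ext (congrArg (fun x : T => (x : Coord r q)) h)
  obtain ⟨V, hV, hVx, hrat⟩ := exists_val_prescribed (fun i : T' => point s P i) hT'' (hp l)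
    (fun i => (τ i).den) (fun i => (τ i).den_pos) (fun i => (τ i).num)
  set v := V.valuation with hv
  have hp1 : v (p l : ℂ) < 1 := by rwa [ValuationSubring.mem_nonunits_iff] at hV
  have hpC : ((p l : ℕ) : ℂ) ≠ 0 := by exact_mod_cast (hp l).ne_zero
  have hp0 : v (p l : ℂ) ≠ 0 := (Valuation.ne_zero_iff _).2 hpC
  let z : Coord r q ⊕ Fin N → ℂ := Sum.elim (point s P) y
  obtain ⟨n, hn, k, hk⟩ := common hrat z
  have hnQ : (0 : ℚ) < n := by exact_mod_cast hn
  let w : Coord r q ⊕ Fin N → WithTop ℚ :=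
    fun i => if z i = 0 then ⊤ else ((k i / n : ℚ) : WithTop ℚ)
  have hw0 : ∀ i, z i = 0 → w i = ⊤ := fun i h => if_pos h
  have hw1 : ∀ i, z i ≠ 0 → w i = ((k i / n : ℚ) : WithTop ℚ) := fun i h => if_neg h
  have htrop : ∀ j, TropAt (supp j) (e l j) w := fun j =>
    trop_point hp0 hp1 (supp j) (c j) (e l j) (fun β hβ => he l j β hβ V hV) z (hy j) hn k hk w
      hw0 hw1
  have hwT : ∀ i ∈ T', w (Sum.inl i) = (τ i : WithTop ℚ) := by
    intro i hi
    have h0 : z (Sum.inl i) ≠ 0 := by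
      have h1 := hT''.ne_zero ⟨i, hi⟩
      exact h1
    rw [hw1 _ h0]
    congr 1
    have h1 : v (z (Sum.inl i)) ^ (τ i).den = v (p l : ℂ) ^ (τ i).num := hVx ⟨i, hi⟩
    have h2 := hk _ h0
    have h3 : v (p l : ℂ) ^ ((τ i).num * n) = v (p l : ℂ) ^ (k (Sum.inl i) * (τ i).den) := by
      rw [zpow_mul, zpow_mul, zpow_natCast, zpow_natCast, ← h1, ← h2, ← pow_mul, ← pow_mul,
        mul_comm]
    have h4 : (τ i).num * (n : ℤ) = k (Sum.inl i) * (τ i).den :=
      le_antisymm ((zle hp0 hp1).1 h3.ge) ((zle hp0 hp1).1 h3.le)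
    have h5 : ((τ i).num : ℚ) * n = k (Sum.inl i) * (τ i).den := by exact_mod_cast h4
    have hdQ : (0 : ℚ) < (τ i).den := by exact_mod_cast (τ i).den_pos
    rw [div_eq_iff hnQ.ne']
    have h6 : ((τ i).num : ℚ) = τ i * (τ i).den := (Rat.mul_den_eq_num _).symm
    rw [h6] at h5
    have h7 : (τ i * n) * ((τ i).den : ℚ) = k (Sum.inl i) * (τ i).den := by
      rw [← h5]
      ring
    exact (mul_right_cancel₀ hdQ.ne' h7).symm
  obtain ⟨J, μ, x, hJ, hμa, hμb, hJx, hdis⟩ := hτ w htrop hwT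
  have hxz : ∀ j ∈ J, z (Sum.inl (Sum.inr j)) ≠ 0 ∧ (x j : ℚ) = k (Sum.inl (Sum.inr j)) / n := by
    intro j hj
    have h1 := (hJx j hj).1
    by_cases h0 : z (Sum.inl (Sum.inr j)) = 0
    · rw [hw0 _ h0] at h1
      exact absurd h1.symm (WithTop.coe_ne_top)
    · rw [hw1 _ h0] at h1
      exact ⟨h0, (WithTop.coe_injective h1).symm⟩
  have h1 := rel_bound (hp l) hV hrat P (inSubgroup_mono hρ hρ') hn
    (k (Sum.inl (Sum.inl (Sum.inl 0)))) (k (Sum.inl (Sum.inl (Sum.inl 1))))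
    (fun h => hk (Sum.inl (Sum.inl (Sum.inl 0))) h) (fun h => hk (Sum.inl (Sum.inl (Sum.inl 1))) h)
    μ (fun h => by
      rw [hw1 (Sum.inl (Sum.inl (Sum.inl 0))) h] at hμa
      exact WithTop.coe_le_coe.1 hμa) (fun h => by
      rw [hw1 (Sum.inl (Sum.inl (Sum.inl 1))) h] at hμb
      exact WithTop.coe_le_coe.1 hμb) J (fun j => k (Sum.inl (Sum.inr j)))
    (fun j hj => ⟨(hxz j hj).1, hk _ (hxz j hj).1⟩)
    (fun j hj => by
      rw [← (hxz j hj).2]
      exact (hJx j hj).2) (fun i hi j hj hij N => by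
      rw [← (hxz j hj).2, ← (hxz i hi).2]
      exact hdis i hi j hj hij N)
  omega

/-- The local criterion. -/
theorem coreP (m : ℕ) (supp : κ → Finset ((Coord r q ⊕ Fin N) →₀ ℕ))
    (c : κ → ((Coord r q ⊕ Fin N) →₀ ℕ) → ℂ) (e : I → κ → ((Coord r q ⊕ Fin N) →₀ ℕ) → ℕ)
    (hgen : GenericP m supp e) (p : I → ℕ) (hp : ∀ l, (p l).Prime)
    (he : ∀ l j, ∀ β ∈ supp j, OrdAt (p l) (c j β) (e l j β)) :
    NoAtypicalP m (OnX supp c) := by
  intro ρ
  refine ⟨fun s P hX hρ T hT => point_bound m supp c e hgen p hp he hX hρ T hT,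
    fun W g hW hcl hprime hg => ?_⟩
  obtain ⟨w, hwW, hw0, T, hT, hdim⟩ := Pool.Agent.W282.SI.generic_dim' ℚ W hprime
    (β := Unit) (fun _ => g) fun _ => hg
  obtain ⟨s, P, hw, hX, hρ⟩ := hW w (hcl hwW) (hw0 ())
  rw [hw] at hT
  have h4 := point_bound m supp c e hgen p hp he hX hρ T hT
  calc zdim W + (ρ : Cardinal) ≤ (T.card : Cardinal) + (ρ : Cardinal) := by gcongr
    _ = ((T.card + ρ : ℕ) : Cardinal) := by push_cast; rfl
    _ ≤ (m : Cardinal) := by exact_mod_cast h4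

end Pool.Agent.R424.PT
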