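import Pool.Agent.R424.PT.Val
import Pool.Agent.TH971.RF.C3

/-!
Points of the tropicalization given by a place with rational values, and the relations between points
of an elliptic curve (helper file).
-/

set_option autoImplicit false

namespace Pool.Agent.R424.PT

open MvPolynomial Pool.Agent.R424.TG
open Pool.Agent.Results.MP_28d749_ag.RandomMultisections (curve xCoord EndRing InSubgroup relMod
  le_finrank toE xCoord_eq)

variable {V : ValuationSubring ℂ} {p : ℕ}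

/-- Common exponents for finitely many numbers. -/
theorem common (h : RatVal V p) {σ : Type} [Fintype σ] (z : σ → ℂ) :
    ∃ n : ℕ, 0 < n ∧ ∃ k : σ → ℤ, ∀ l, z l ≠ 0 →
      V.valuation (z l) ^ n = V.valuation (p : ℂ) ^ k l := by
  classical
  have h1 : ∀ l, ∃ n : ℕ, 0 < n ∧ ∃ k : ℤ, z l ≠ 0 →
      V.valuation (z l) ^ n = V.valuation (p : ℂ) ^ k := by
    intro l
    by_cases hl : z l = 0
    · exact ⟨1, one_pos, 0, fun h => absurd hl h⟩
    · obtain ⟨n, hn, k, hk⟩ := h (z l) hl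
      exact ⟨n, hn, k, fun _ => hk⟩
  choose n hn k hk using h1
  refine ⟨∏ l, n l, Finset.prod_pos fun l _ => hn l,
    fun l => k l * ((∏ j ∈ Finset.univ.erase l, n j : ℕ) : ℤ), fun l hl => ?_⟩
  rw [← Finset.mul_prod_erase _ n (Finset.mem_univ l), pow_mul, hk l hl, zpow_mul, zpow_natCast]

theorem zle {x : V.ValueGroup} (h0 : x ≠ 0) (h1 : x < 1) {a b : ℤ} : x ^ a ≤ x ^ b ↔ b ≤ a :=
  zpow_le_zpow_iff_right_of_lt_one₀ (zero_lt_iff.2 h0) h1

theorem trop_point (hp0 : V.valuation (p : ℂ) ≠ 0) (hp1 : V.valuation (p : ℂ) < 1)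
    {σ : Type} [Fintype σ] (supp : Finset (σ →₀ ℕ)) (b : (σ →₀ ℕ) → ℂ) (e : (σ →₀ ℕ) → ℕ)
    (hb : ∀ β ∈ supp, V.valuation (b β) = V.valuation (p : ℂ) ^ e β)
    (z : σ → ℂ) (hz : ∑ β ∈ supp, b β * ∏ i, z i ^ β i = 0) {n : ℕ} (hn : 0 < n) (k : σ → ℤ)
    (hk : ∀ l, z l ≠ 0 → V.valuation (z l) ^ n = V.valuation (p : ℂ) ^ k l)
    (w : σ → WithTop ℚ) (hw0 : ∀ l, z l = 0 → w l = ⊤)
    (hw1 : ∀ l, z l ≠ 0 → w l = ((k l / n : ℚ) : WithTop ℚ)) : TropAt supp e w := by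
  classical
  set v := V.valuation with hv
  have hnQ : (0 : ℚ) < n := by exact_mod_cast hn
  let A : Finset (σ →₀ ℕ) := supp.filter fun β => ∀ l, z l = 0 → β l = 0
  let term : (σ →₀ ℕ) → ℂ := fun β => b β * ∏ i, z i ^ β i
  have hterm0 : ∀ β ∈ A, term β ≠ 0 := by
    intro β hβ
    obtain ⟨h1, h2⟩ := Finset.mem_filter.1 hβ
    refine mul_ne_zero (fun h0 => ?_) (Finset.prod_ne_zero_iff.2 fun l _ => ?_)
    · have h3 := hb β h1
      rw [h0, map_zero] at h3
      exact pow_ne_zero _ hp0 h3.symm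
    by_cases hl : z l = 0
    · rw [h2 l hl, pow_zero]
      exact one_ne_zero
    · exact pow_ne_zero _ hl
  have hterm0' : ∀ β ∈ supp, β ∉ A → term β = 0 := by
    intro β hβ hβA
    have h1 : ∃ l, z l = 0 ∧ β l ≠ 0 := by
      by_contra h
      push Not at h
      exact hβA (Finset.mem_filter.2 ⟨hβ, h⟩)
    obtain ⟨l, hl, hl'⟩ := h1
    have h2 : ∏ i, z i ^ β i = 0 := Finset.prod_eq_zero (Finset.mem_univ l) (by
      rw [hl, zero_pow hl'])
    simp only [term, h2, mul_zero]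
  have hsum : ∑ β ∈ A, term β = 0 := by
    rw [← hz]
    exact Finset.sum_subset (Finset.filter_subset _ _) fun β hβ hβA => hterm0' β hβ hβA
  let NN : (σ →₀ ℕ) → ℤ := fun β => n * e β + ∑ l, β l * k l
  have hval : ∀ β ∈ A, v (term β) ^ n = v (p : ℂ) ^ NN β := by
    intro β hβ
    obtain ⟨h1, h2⟩ := Finset.mem_filter.1 hβ
    simp only [term, map_mul, map_prod, map_pow]
    rw [hb β h1, mul_pow, zpow_add₀ hp0, ← pow_mul, ← Finset.prod_pow]
    congr 1
    · rw [← zpow_natCast]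
      congr 1
      push_cast
      ring
    · have h3 : v (p : ℂ) ^ (∑ l, (β l : ℤ) * k l) = ∏ l, v (p : ℂ) ^ ((β l : ℤ) * k l) := by
        have h4 : ∀ s : Finset σ, v (p : ℂ) ^ (∑ l ∈ s, (β l : ℤ) * k l) =
            ∏ l ∈ s, v (p : ℂ) ^ ((β l : ℤ) * k l) := by
          intro s
          induction s using Finset.induction_on with
          | empty => simp
          | insert a s ha ih => rw [Finset.sum_insert ha, Finset.prod_insert ha, zpow_add₀ hp0, ih]
        exact h4 _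
      rw [h3]
      refine Finset.prod_congr rfl fun l _ => ?_
      by_cases hl : z l = 0
      · rw [h2 l hl]
        simp
      · rw [← pow_mul, mul_comm (β l) n, pow_mul, hk l hl, ← zpow_natCast, ← zpow_mul, mul_comm]
  have hcoe : ∀ β ∈ A, value w β (e β) = ((NN β / n : ℚ) : WithTop ℚ) := by
    intro β hβ
    obtain ⟨h1, h2⟩ := Finset.mem_filter.1 hβ
    rw [value_coe (u := fun l => (k l / n : ℚ)) fun l hl => hw1 l fun h => hl (h2 l h)]
    congr 1
    simp only [NN]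
    push_cast
    rw [add_div, mul_div_cancel_left₀ _ hnQ.ne', Finset.sum_div]
    congr 1
    exact Finset.sum_congr rfl fun l _ => (mul_div_assoc _ _ _).symm
  have htop : ∀ β ∈ supp, β ∉ A → value w β (e β) = ⊤ := by
    intro β hβ hβA
    have h1 : ∃ l, z l = 0 ∧ β l ≠ 0 := by
      by_contra h
      push Not at h
      exact hβA (Finset.mem_filter.2 ⟨hβ, h⟩)
    obtain ⟨l, hl, hl'⟩ := h1
    exact value_top (hw0 l hl) hl'
  have hle : ∀ β ∈ A, ∀ β' ∈ A, v (term β) ≤ v (term β') → NN β' ≤ NN β := by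
    intro β hβ β' hβ' h
    have h1 := pow_le_pow_left' h n
    rw [hval β hβ, hval β' hβ'] at h1
    exact (zle hp0 hp1).1 h1
  by_cases hne : A.Nonempty
  · right
    obtain ⟨a, ha, b', hb', hab, hvab, hmax⟩ := Pool.Agent.Y199.ZF.exists_pair_val V A hne
      term hterm0 hsum
    refine ⟨a, (Finset.mem_filter.1 ha).1, b', (Finset.mem_filter.1 hb').1, hab, ?_, ?_⟩
    · rw [hcoe a ha, hcoe b' hb', le_antisymm (hle b' hb' a ha hvab.ge) (hle a ha b' hb' hvab.le)]
    · intro β hβ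
      by_cases hβA : β ∈ A
      · rw [hcoe a ha, hcoe β hβA, WithTop.coe_le_coe]
        have h1 : (NN a : ℚ) ≤ NN β := by exact_mod_cast hle β hβA a ha (hmax β hβA)
        exact div_le_div_of_nonneg_right h1 hnQ.le
      · rw [htop β hβ hβA]
        exact le_top
  · left
    intro β hβ
    exact htop β hβ fun h => hne ⟨β, h⟩

/-- The relations between points of an elliptic curve near to the origin. -/
theorem rel_bound (hp : p.Prime) (hV : (p : ℂ) ∈ V.nonunits) (hrat : RatVal V p) {a b : ℂ} {q ρ : ℕ}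
    (P : Fin q → (curve a b).Point) (hS : InSubgroup P ρ) {n : ℕ} (hn : 0 < n)
    (ka kb : ℤ) (hka : a ≠ 0 → V.valuation a ^ n = V.valuation (p : ℂ) ^ ka)
    (hkb : b ≠ 0 → V.valuation b ^ n = V.valuation (p : ℂ) ^ kb)
    (μ : ℚ) (hμa : a ≠ 0 → 2 * μ ≤ ka / n) (hμb : b ≠ 0 → 3 * μ ≤ kb / n)
    (J : Finset (Fin q)) (k : Fin q → ℤ) (hk : ∀ j ∈ J, xCoord (P j) ≠ 0 ∧
      V.valuation (xCoord (P j)) ^ n = V.valuation (p : ℂ) ^ k j)
    (hdeep : ∀ j ∈ J, (k j / n : ℚ) + 1 / 2 < μ)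
    (hdis : ∀ i ∈ J, ∀ j ∈ J, i ≠ j → ∀ N : ℤ, (k i / n : ℚ) - k j / n ≠ N) :
    J.card + ρ ≤ q := by
  classical
  by_contra hcon
  push Not at hcon
  obtain ⟨E, c, hc, hrel⟩ := hS
  set v := V.valuation with hv
  have hp1 : v (p : ℂ) < 1 := by rwa [ValuationSubring.mem_nonunits_iff] at hV
  have hpC : (p : ℂ) ≠ 0 := by exact_mod_cast hp.ne_zero
  have hp0 : v (p : ℂ) ≠ 0 := (Valuation.ne_zero_iff _).2 hpC
  have hpos : 0 < v (p : ℂ) := zero_lt_iff.2 hp0
  have hnQ : (0 : ℚ) < n := by exact_mod_cast hn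
  have hnZ : (0 : ℤ) < n := by exact_mod_cast hn
  have hd : 0 < μ.den := μ.den_pos
  have hdQ : (0 : ℚ) < μ.den := by exact_mod_cast hd
  have hμ : μ = μ.num / μ.den := (Rat.num_div_den μ).symm
  -- the scaling factor
  obtain ⟨z, hz⟩ := IsAlgClosed.exists_pow_nat_eq ((p : ℂ) ^ (-μ.num)) (n := 2 * μ.den) (by omega)
  have hz0 : z ≠ 0 := by
    intro h
    rw [h, zero_pow (by omega)] at hz
    exact zpow_ne_zero _ hpC hz.symm
  have hvz : v z ^ (2 * μ.den) = v (p : ℂ) ^ (-μ.num) := by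
    rw [← map_pow, hz, map_zpow₀]
  -- the uniformizer
  have hR0 : 0 < n * μ.den := Nat.mul_pos hn hd
  obtain ⟨r, hr⟩ := IsAlgClosed.exists_pow_nat_eq (p : ℂ) hR0
  have hvr : v (p : ℂ) = v r ^ (n * μ.den) := by rw [← map_pow, hr]
  have hr0 : r ≠ 0 := by
    intro h
    rw [h, zero_pow hR0.ne'] at hr
    exact hpC hr.symm
  have hρ0 : 0 < v r := zero_lt_iff.2 ((Valuation.ne_zero_iff _).2 hr0)
  -- integrality
  have hint : ∀ (m : ℕ) (x : ℂ) (kx : ℤ), (x ≠ 0 → v x ^ n = v (p : ℂ) ^ kx) →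
      (x ≠ 0 → (m : ℚ) * μ ≤ kx / n) → v (z ^ (2 * m) * x) ≤ 1 := by
    intro m x kx h1 h2
    by_cases hx : x = 0
    · rw [hx, mul_zero, map_zero]
      exact zero_le
    · have h3 : v (z ^ (2 * m) * x) ^ (n * μ.den) = v (p : ℂ) ^ (kx * μ.den - m * n * μ.num) := by
        rw [map_mul, map_pow, mul_pow, ← pow_mul,
          show 2 * m * (n * μ.den) = (2 * μ.den) * (m * n) by ring, pow_mul, hvz, pow_mul (v x),
          h1 hx, ← zpow_natCast, ← zpow_natCast, ← zpow_mul, ← zpow_mul, ← zpow_add₀ hp0]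
        congr 1
        push_cast
        ring
      have h4 : 0 ≤ kx * μ.den - m * n * μ.num := by
        have h5 := h2 hx
        rw [le_div_iff₀ hnQ, hμ, mul_div_assoc', div_mul_eq_mul_div, div_le_iff₀ hdQ] at h5
        have h6 : (m : ℤ) * μ.num * n ≤ kx * μ.den := by exact_mod_cast h5
        linarith [mul_right_comm (m : ℤ) n μ.num]
      have h5 : v (z ^ (2 * m) * x) ^ (n * μ.den) ≤ 1 := by
        rw [h3]
        have h6 := (zle hp0 hp1 (a := kx * μ.den - m * n * μ.num) (b := 0)).2 h4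
        rwa [zpow_zero] at h6
      exact (pow_le_one_iff hR0.ne').1 h5
  have hA : v (z ^ 4 * a) ≤ 1 := hint 2 a ka hka (fun h => by exact_mod_cast hμa h)
  have hB : v (z ^ 6 * b) ≤ 1 := hint 3 b kb hkb (fun h => by exact_mod_cast hμb h)
  -- the levels
  let f : Fin q → ℕ := fun j => (n * μ.num - μ.den * k j).toNat
  have hfQ : ∀ j, ((n * μ.num - μ.den * k j : ℤ) : ℚ) = (n * μ.den : ℚ) * (μ - k j / n) := by
    intro j
    have h1 : (μ.num : ℚ) = μ * μ.den := (Rat.mul_den_eq_num μ).symm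
    push_cast
    rw [h1, mul_sub, mul_div_assoc', mul_right_comm (n : ℚ) _ (k j : ℚ),
      mul_assoc (n : ℚ) (k j : ℚ), mul_div_cancel_left₀ _ hnQ.ne']
    ring
  have hfpos : ∀ j ∈ J, 0 < n * μ.num - μ.den * k j := by
    intro j hj
    have h1 := hdeep j hj
    have h2 : (0 : ℚ) < ((n * μ.num - μ.den * k j : ℤ) : ℚ) := by
      rw [hfQ]
      refine mul_pos (mul_pos hnQ hdQ) ?_
      linarith
    exact_mod_cast h2
  have hf1 : ∀ j ∈ J, (f j : ℤ) = n * μ.num - μ.den * k j := fun j hj =>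
    Int.toNat_of_nonneg (hfpos j hj).le
  have hf2 : ∀ j ∈ J, (f j : ℚ) = (n * μ.den : ℚ) * (μ - k j / n) := by
    intro j hj
    rw [← hfQ, ← hf1 j hj]
    push_cast
    rfl
  have hf : ∀ j ∈ J, v (Pool.Agent.W466.EP.xx (Pool.Agent.TH971.RF.scl hz0 (P j))) * v r ^ f j
      = 1 := by
    intro j hj
    obtain ⟨hx0, hxk⟩ := hk j hj
    have h9 : v (Pool.Agent.W466.EP.xx (Pool.Agent.TH971.RF.scl hz0 (P j))) =
        v (z ^ 2 * xCoord (P j)) :=
      congrArg v ((Pool.Agent.TH971.RF.xx_scl (A := a) (B := b) hz0 (P j)).trans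
        (congrArg (fun x => z ^ 2 * x) (xCoord_eq (P j)).symm))
    refine (congrArg (fun x => x * v r ^ f j) h9).trans ?_
    change v (z ^ 2 * xCoord (P j)) * v r ^ f j = 1
    have h1 : (v (z ^ 2 * xCoord (P j)) * v r ^ f j) ^ (n * μ.den) = 1 := by
      rw [mul_pow, ← pow_mul, mul_comm (f j), pow_mul (v r), ← hvr, map_mul, map_pow, mul_pow,
        ← pow_mul, show 2 * (n * μ.den) = (2 * μ.den) * n by ring, pow_mul, hvz,
        pow_mul (v (xCoord (P j))), hxk, ← zpow_natCast, ← zpow_natCast, ← zpow_natCast,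
        ← zpow_mul, ← zpow_mul, ← zpow_add₀ hp0, ← zpow_add₀ hp0, hf1 j hj]
      have h2 : -μ.num * (n : ℤ) + k j * (μ.den : ℤ) + (n * μ.num - μ.den * k j) = 0 := by ring
      rw [h2, zpow_zero]
    exact (pow_eq_one_iff.1 h1).resolve_right hR0.ne'
  have hfR : ∀ j ∈ J, n * μ.den < 2 * f j := by
    intro j hj
    have h1 := hdeep j hj
    have h2 := hf2 j hj
    have h3 : ((n * μ.den : ℕ) : ℚ) < ((2 * f j : ℕ) : ℚ) := by
      push_cast
      rw [h2]
      have h4 : (0 : ℚ) < n * μ.den := mul_pos hnQ hdQ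
      nlinarith
    exact_mod_cast h3
  have hdis' : ∀ i ∈ J, ∀ j ∈ J, i ≠ j → ¬ f i ≡ f j [MOD n * μ.den] := by
    intro i hi j hj hij hmod
    have h1 : ((n * μ.den : ℕ) : ℤ) ∣ (f j : ℤ) - f i := (Nat.modEq_iff_dvd).1 hmod
    obtain ⟨N, hN⟩ := h1
    refine hdis i hi j hj hij N ?_
    have h2 : ((f j : ℚ) - f i) = ((n * μ.den : ℕ) : ℚ) * N := by exact_mod_cast hN
    rw [hf2 i hi, hf2 j hj] at h2
    push_cast at h2
    have h4 : (0 : ℚ) < n * μ.den := mul_pos hnQ hdQ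
    have h5 : (n * μ.den : ℚ) * (k i / n - k j / n) = (n * μ.den : ℚ) * N := by
      rw [← h2]
      ring
    exact mul_left_cancel₀ h4.ne' h5
  -- a relation supported on `J`
  have hrk := le_finrank E P c hc hrel
  obtain ⟨d, hd1, hd2, hd3⟩ := Pool.Agent.TH971.RF.exists_relO (relMod E P) Jᶜ (by
    rw [Finset.card_compl, Fintype.card_fin]
    have := Finset.card_le_univ J
    rw [Fintype.card_fin] at this
    omega)
  obtain ⟨t, ht, hdt⟩ := hd1
  have harch : ∀ x : ℂ, ∃ M : ℕ, v x * v (p : ℂ) ^ M ≤ 1 := by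
    intro x
    by_cases hx : x = 0
    · exact ⟨0, by rw [hx, map_zero, zero_mul]; exact zero_le⟩
    obtain ⟨n', hn', k', hk'⟩ := hrat x hx
    refine ⟨k'.natAbs, ?_⟩
    have h1 : (v x * v (p : ℂ) ^ k'.natAbs) ^ n' ≤ 1 := by
      rw [mul_pow, hk', ← pow_mul, ← zpow_natCast, ← zpow_add₀ hp0]
      have h6 := (zle hp0 hp1 (a := k' + ((k'.natAbs * n' : ℕ) : ℤ)) (b := 0)).2 (by
        push_cast
        have h7 : (1 : ℤ) ≤ n' := by exact_mod_cast hn'
        have h8 : -|k'| ≤ k' := neg_abs_le k'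
        have h9 : 0 ≤ |k'| := abs_nonneg k'
        nlinarith)
      rwa [zpow_zero] at h6
    exact (pow_le_one_iff hn'.ne').1 h1
  exact Pool.Agent.TH971.RF.rel_placeE hp hV harch hz0 hA hB (toE E) hvr hR0 hρ0 P J f hf hfR
    hdis' d hd2 (fun i hi => hd3 i (Finset.mem_compl.2 hi)) ht hdt

end Pool.Agent.R424.PT
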