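import Pool.Agent.R424.PT.Main
import Pool.Agent.R424.PT.Cnt

/-!
One-parameter families of subvarieties of the powers of elliptic schemes (helper file).
-/

set_option autoImplicit false

namespace Pool.Agent.R424.PT

open MvPolynomial Pool.Agent.R424.TG Pool.Agent.W282.ZP
open Pool.Agent.Results.MP_28d749_ag.RandomMultisections (curve xCoord EndRing InSubgroup)

variable {κ I : Type} {r q N : ℕ}

/-- As `NoAtypicalP`, with the transcendence degrees over the field `K`. -/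
def NoAtypicalK (K : Subfield ℂ) (m : ℕ) (X : ∀ s : Fin 2 ⊕ Fin r → ℂ,
    (Fin q → (curve (s (Sum.inl 0)) (s (Sum.inl 1))).Point) → Prop) : Prop :=
  ∀ ρ : ℕ,
    (∀ s P, X s P → InSubgroup P ρ → ∀ T : Finset (Coord r q),
      AlgebraicIndependent K (fun i : T => point s P i) → T.card + ρ ≤ m) ∧
    ∀ (W : Set (Coord r q → ℂ)) (g : MvPolynomial (Coord r q) ℂ),
      (∀ w ∈ W, eval w g ≠ 0 → ∃ s P, w = point s P ∧ X s P ∧ InSubgroup P ρ) →
      zcl W ⊆ W → (idealOf W).IsPrime → g ∉ idealOf W →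
      zdim W + (ρ : Cardinal) ≤ (m : Cardinal)

/-- The member of the family at `t`: the coefficients, which are polynomials in `t` over the field of
the algebraic numbers, are evaluated at `t`. -/
def MemberP (F : κ → MvPolynomial (Coord r q ⊕ Fin N) (Polynomial (algebraicClosure ℚ ℂ))) (t : ℂ)
    (s : Fin 2 ⊕ Fin r → ℂ) (P : Fin q → (curve (s (Sum.inl 0)) (s (Sum.inl 1))).Point) : Prop :=
  OnX (fun j => (F j).support) (fun j β => Polynomial.aeval t ((F j).coeff β)) s P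

/-- The orders of the coefficients at the rational numbers `α ∈ D`. -/
noncomputable def orders (F : κ → MvPolynomial (Coord r q ⊕ Fin N) (Polynomial (algebraicClosure ℚ ℂ)))
    (D : Finset ℚ) (α : {α // α ∈ D}) (j : κ) (β : (Coord r q ⊕ Fin N) →₀ ℕ) : ℕ :=
  ((F j).coeff β).rootMultiplicity (algebraMap ℚ (algebraicClosure ℚ ℂ) α)

/-- The bound for points, with given places. -/
theorem point_bound' {K₁ : Type} [Field K₁] [Algebra K₁ ℂ] (m : ℕ)
    (supp : κ → Finset ((Coord r q ⊕ Fin N) →₀ ℕ))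
    (c : κ → ((Coord r q ⊕ Fin N) →₀ ℕ) → ℂ) (e : I → κ → ((Coord r q ⊕ Fin N) →₀ ℕ) → ℕ)
    (hgen : GenericP m supp e) (p : I → ℕ) (hp : ∀ l, (p l).Prime)
    (hplace : ∀ l (T : Finset (Coord r q)) (x : T → ℂ), AlgebraicIndependent K₁ x →
      ∀ n : T → ℕ, (∀ t, 0 < n t) → ∀ k : T → ℤ, ∃ V : ValuationSubring ℂ,
        ((p l : ℕ) : ℂ) ∈ V.nonunits ∧
        (∀ t, V.valuation (x t) ^ n t = V.valuation ((p l : ℕ) : ℂ) ^ k t) ∧ RatVal V (p l) ∧
        ∀ j, ∀ β ∈ supp j, V.valuation (c j β) = V.valuation ((p l : ℕ) : ℂ) ^ e l j β)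
    {s : Fin 2 ⊕ Fin r → ℂ}
    {P : Fin q → (curve (s (Sum.inl 0)) (s (Sum.inl 1))).Point} (hX : OnX supp c s P) {ρ : ℕ}
    (hρ : InSubgroup P ρ) (T : Finset (Coord r q))
    (hT : AlgebraicIndependent K₁ (fun i : T => point s P i)) : T.card + ρ ≤ m := by
  classical
  by_contra hcon
  push Not at hcon
  obtain ⟨hdisc, hP0, y, hy⟩ := hX
  obtain ⟨T', ρ', hT', hρ', hcard⟩ : ∃ (T' : Finset (Coord r q)) (ρ' : ℕ), T' ⊆ T ∧ ρ' ≤ ρ ∧
      T'.card + ρ' = m + 1 := by
    by_cases h : m + 1 ≤ T.card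
    · obtain ⟨T', h1, h2⟩ := Finset.exists_subset_card_eq h
      exact ⟨T', 0, h1, Nat.zero_le _, by omega⟩
    · exact ⟨T, m + 1 - T.card, subset_rfl, by omega, by omega⟩
  obtain ⟨l, τ, hτ⟩ := hgen ρ' T' hcard
  have hT'' : AlgebraicIndependent K₁ (fun i : T' => point s P i) :=
    hT.comp (fun i : T' => (⟨i, hT' i.2⟩ : T)) fun i j h =>
      Subtype.ext (congrArg (fun x : T => (x : Coord r q)) h)
  obtain ⟨V, hV, hVx, hrat, hVc⟩ := hplace l T' (fun i : T' => point s P i) hT''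
    (fun i => (τ i).den) (fun i => (τ i).den_pos) (fun i => (τ i).num)
  set v := V.valuation with hv
  have hp1 : v (p l : ℂ) < 1 := by rwa [ValuationSubring.mem_nonunits_iff] at hV
  have hpC : ((p l : ℕ) : ℂ) ≠ 0 := by exact_mod_cast (hp l).ne_zero
  have hp0 : v (p l : ℂ) ≠ 0 := (Valuation.ne_zero_iff _).2 hpC
  let z : Coord r q ⊕ Fin N → ℂ := Sum.elim (point s P) y
  obtain ⟨n, hn, k, hk⟩ := common hrat z
  have hnQ : (0 : ℚ) < n := by exact_mod_cast hn
  let w : Coord r q ⊕ Fin N → WithTop ℚ :=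
    fun i => if z i = 0 then ⊤ else ((k i / n : ℚ) : WithTop ℚ)
  have hw0 : ∀ i, z i = 0 → w i = ⊤ := fun i h => if_pos h
  have hw1 : ∀ i, z i ≠ 0 → w i = ((k i / n : ℚ) : WithTop ℚ) := fun i h => if_neg h
  have htrop : ∀ j, TropAt (supp j) (e l j) w := fun j =>
    trop_point hp0 hp1 (supp j) (c j) (e l j) (fun β hβ => hVc j β hβ) z (hy j) hn k hk w
      hw0 hw1
  have hwT : ∀ i ∈ T', w (Sum.inl i) = (τ i : WithTop ℚ) := by
    intro i hi
    have h0 : z (Sum.inl i) ≠ 0 := by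
      have h1 := hT''.ne_zero ⟨i, hi⟩
      exact h1
    rw [hw1 _ h0]
    congr 1
    have h1 : v (z (Sum.inl i)) ^ (τ i).den = v (p l : ℂ) ^ (τ i).num := hVx ⟨i, hi⟩
    have h2 := hk _ h0
    have h3 : v (p l : ℂ) ^ ((τ i).num * n) = v (p l : ℂ) ^ (k (Sum.inl i) * (τ i).den) := by
      rw [zpow_mul, zpow_mul, zpow_natCast, zpow_natCast, ← h1, ← h2, ← pow_mul, ← pow_mul,
        mul_comm]
    have h4 : (τ i).num * (n : ℤ) = k (Sum.inl i) * (τ i).den :=
      le_antisymm ((zle hp0 hp1).1 h3.ge) ((zle hp0 hp1).1 h3.le)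
    have h5 : ((τ i).num : ℚ) * n = k (Sum.inl i) * (τ i).den := by exact_mod_cast h4
    have hdQ : (0 : ℚ) < (τ i).den := by exact_mod_cast (τ i).den_pos
    rw [div_eq_iff hnQ.ne']
    have h6 : ((τ i).num : ℚ) = τ i * (τ i).den := (Rat.mul_den_eq_num _).symm
    rw [h6] at h5
    have h7 : (τ i * n) * ((τ i).den : ℚ) = k (Sum.inl i) * (τ i).den := by
      rw [← h5]
      ring
    exact (mul_right_cancel₀ hdQ.ne' h7).symm
  obtain ⟨J, μ, x, hJ, hμa, hμb, hJx, hdis⟩ := hτ w htrop hwT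
  have hxz : ∀ j ∈ J, z (Sum.inl (Sum.inr j)) ≠ 0 ∧ (x j : ℚ) = k (Sum.inl (Sum.inr j)) / n := by
    intro j hj
    have h1 := (hJx j hj).1
    by_cases h0 : z (Sum.inl (Sum.inr j)) = 0
    · rw [hw0 _ h0] at h1
      exact absurd h1.symm (WithTop.coe_ne_top)
    · rw [hw1 _ h0] at h1
      exact ⟨h0, (WithTop.coe_injective h1).symm⟩
  have h1 := rel_bound (hp l) hV hrat P (inSubgroup_mono hρ hρ') hn
    (k (Sum.inl (Sum.inl (Sum.inl 0)))) (k (Sum.inl (Sum.inl (Sum.inl 1))))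
    (fun h => hk (Sum.inl (Sum.inl (Sum.inl 0))) h) (fun h => hk (Sum.inl (Sum.inl (Sum.inl 1))) h)
    μ (fun h => by
      rw [hw1 (Sum.inl (Sum.inl (Sum.inl 0))) h] at hμa
      exact WithTop.coe_le_coe.1 hμa) (fun h => by
      rw [hw1 (Sum.inl (Sum.inl (Sum.inl 1))) h] at hμb
      exact WithTop.coe_le_coe.1 hμb) J (fun j => k (Sum.inl (Sum.inr j)))
    (fun j hj => ⟨(hxz j hj).1, hk _ (hxz j hj).1⟩)
    (fun j hj => by
      rw [← (hxz j hj).2]
      exact (hJx j hj).2) (fun i hi j hj hij N => by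
      rw [← (hxz j hj).2, ← (hxz i hi).2]
      exact hdis i hi j hj hij N)
  omega

/-- The orders of the coefficients near the elements of `D`, at the places above large primes. -/
theorem near_large [Finite κ]
    (F : κ → MvPolynomial (Coord r q ⊕ Fin N) (Polynomial (algebraicClosure ℚ ℂ)))
    (D : Finset ℚ) : ∃ P₀ : ℕ, (∀ α ∈ D, α.den ≤ P₀) ∧ ∀ p : ℕ, p.Prime → P₀ < p →
      ∀ V : ValuationSubring ℂ, (p : ℂ) ∈ V.nonunits → ∀ (α : {α // α ∈ D}) (t : ℂ),
        V.valuation (t - ((α : ℚ) : ℂ)) = V.valuation (p : ℂ) → ∀ j, ∀ β ∈ (F j).support,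
          V.valuation (Polynomial.aeval t ((F j).coeff β)) =
            V.valuation (p : ℂ) ^ orders F D α j β := by
  classical
  let ι := Σ j : κ, {β // β ∈ (F j).support}
  obtain ⟨W, hW, -, -, hnear⟩ := near' (ι := ι) (fun x => (F x.1).coeff (x.2 : _ →₀ ℕ))
    (fun x => mem_support_iff.1 x.2.2)
    (D.image fun α : ℚ => algebraMap ℚ (algebraicClosure ℚ ℂ) α) ∅ Set.finite_empty
  have := hW.to_subtype
  obtain ⟨D₀, hD₀, halg⟩ := Pool.Agent.W466.ZP.alg_mem
    (fun z : W => algebraMap (algebraicClosure ℚ ℂ) ℂ z)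
    (fun z => mem_algebraicClosure_iff.1 (z : algebraicClosure ℚ ℂ).2)
  refine ⟨D₀ + ∑ α ∈ D, α.den, fun α hα => ?_, fun p hp hpP V hV α t ht j β hβ => ?_⟩
  · have := Finset.single_le_sum (f := fun α : ℚ => α.den) (fun _ _ => Nat.zero_le _) hα
    omega
  · have hpD : ¬ p ∣ D₀ := fun h => by
      have := Nat.le_of_dvd hD₀ h
      omega
    have hWV : ∀ z ∈ W, algebraMap (algebraicClosure ℚ ℂ) ℂ z ∈ V := fun z hz =>
      halg p hp hpD V hV ⟨z, hz⟩
    have hp1 : V.valuation (p : ℂ) < 1 := by rwa [ValuationSubring.mem_nonunits_iff] at hV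
    have hα : algebraMap (algebraicClosure ℚ ℂ) ℂ (algebraMap ℚ (algebraicClosure ℚ ℂ) α) =
        ((α : ℚ) : ℂ) := by
      rw [← IsScalarTower.algebraMap_apply ℚ (algebraicClosure ℚ ℂ) ℂ]
      rfl
    have h1 := hnear V hWV (algebraMap ℚ (algebraicClosure ℚ ℂ) α)
      (Finset.mem_image_of_mem _ α.2) t (by rw [hα, ht]; exact hp1) ⟨j, β, hβ⟩
    rw [hα, ht] at h1
    exact h1

/-- The members with a transcendental parameter. -/
theorem transP [Finite κ]
    (F : κ → MvPolynomial (Coord r q ⊕ Fin N) (Polynomial (algebraicClosure ℚ ℂ)))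
    (D : Finset ℚ) (m : ℕ) (hgen : GenericP m (fun j => (F j).support) (orders F D)) (t : ℂ)
    (ht : Transcendental ℚ t) (K₁ : Subfield ℂ) [Countable K₁] (htK : t ∈ K₁) :
    NoAtypicalK K₁ m (MemberP F t : ∀ s : Fin 2 ⊕ Fin r → ℂ,
      (Fin q → (curve (s (Sum.inl 0)) (s (Sum.inl 1))).Point) → Prop) := by
  classical
  obtain ⟨P₀, -, hP₀⟩ := near_large F D
  obtain ⟨p, hpP, hp⟩ := Nat.exists_infinite_primes (P₀ + 1)
  have hplace : ∀ (α : {α // α ∈ D}) (T : Finset (Coord r q)) (x : T → ℂ),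
      AlgebraicIndependent K₁ x → ∀ n : T → ℕ, (∀ t, 0 < n t) → ∀ k : T → ℤ,
      ∃ V : ValuationSubring ℂ, (p : ℂ) ∈ V.nonunits ∧
        (∀ t, V.valuation (x t) ^ n t = V.valuation (p : ℂ) ^ k t) ∧ RatVal V p ∧
        ∀ j, ∀ β ∈ (F j).support, V.valuation (Polynomial.aeval t ((F j).coeff β)) =
          V.valuation (p : ℂ) ^ orders F D α j β := by
    intro α T x hx n hn k
    have hu : Transcendental ℚ (t - ((α : ℚ) : ℂ)) := by
      intro h
      apply ht
      have h2 : IsAlgebraic ℚ ((α : ℚ) : ℂ) := isAlgebraic_algebraMap (A := ℂ) (α : ℚ)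
      have h3 := h.add h2
      rwa [sub_add_cancel] at h3
    have h1 : AlgebraicIndependent ℚ (fun _ : Unit => t - ((α : ℚ) : ℂ)) :=
      algebraicIndependent_unique_type_iff.2 hu
    have h2 : AlgebraicIndependent ℚ (Sum.elim x (fun _ : Unit => t - ((α : ℚ) : ℂ))) := by
      refine h1.sumElim_of_tower (S := K₁) ?_ hx
      rintro _ ⟨_, rfl⟩
      have h3 : ((α : ℚ) : ℂ) ∈ K₁ := SubfieldClass.ratCast_mem K₁ (α : ℚ)
      exact ⟨⟨_, sub_mem htK h3⟩, rfl⟩
    obtain ⟨V, hV, hVx, hrat⟩ := exists_val_prescribed _ h2 hp (Sum.elim n fun _ => 1)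
      (by
        rintro (i | i)
        · exact hn i
        · exact one_pos) (Sum.elim k fun _ => 1)
    have h4 := hVx (Sum.inr ())
    simp only [Sum.elim_inr, pow_one, zpow_one] at h4
    exact ⟨V, hV, fun i => hVx (Sum.inl i), hrat, fun j β hβ =>
      hP₀ p hp (by omega) V hV α t h4 j β hβ⟩
  intro ρ
  have hpt : ∀ s P, MemberP F t s P → InSubgroup P ρ → ∀ T : Finset (Coord r q),
      AlgebraicIndependent K₁ (fun i : T => point s P i) → T.card + ρ ≤ m := by
    intro s P hX hρ T hT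
    exact point_bound' (K₁ := K₁) m (fun j => (F j).support)
      (fun j β => Polynomial.aeval t ((F j).coeff β)) (orders F D) hgen (fun _ => p) (fun _ => hp)
      hplace hX hρ T hT
  refine ⟨hpt, fun W g hW hcl hprime hg => ?_⟩
  obtain ⟨w, hwW, hw0, T, hT, hdim⟩ := Pool.Agent.W282.SI.generic_dim' K₁ W hprime
    (β := Unit) (fun _ => g) fun _ => hg
  obtain ⟨s, P, hw, hX, hρ⟩ := hW w (hcl hwW) (hw0 ())
  rw [hw] at hT
  have h4 := hpt s P hX hρ T hT
  calc zdim W + (ρ : Cardinal) ≤ (T.card : Cardinal) + (ρ : Cardinal) := by gcongr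
    _ = ((T.card + ρ : ℕ) : Cardinal) := by push_cast; rfl
    _ ≤ (m : Cardinal) := by exact_mod_cast h4

/-- The value of `u / v - α`. -/
theorem val_near {p : ℕ} (hp : p.Prime) {V : ValuationSubring ℂ} (hV : (p : ℂ) ∈ V.nonunits)
    {u : ℤ} {v : ℕ} (hv : 0 < v) (huv : IsCoprime u (v : ℤ)) (α : ℚ) (hα : α.den < p)
    (h1 : (p : ℤ) ∣ u * α.den - α.num * v) (h2 : ¬ (p : ℤ) ^ 2 ∣ u * α.den - α.num * v) :
    V.valuation ((u : ℂ) / v - (α : ℂ)) = V.valuation (p : ℂ) := by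
  have hpp : Prime (p : ℤ) := Nat.prime_iff_prime_int.1 hp
  obtain ⟨w, hw⟩ := h1
  have hwp : ¬ (p : ℤ) ∣ w := by
    rintro ⟨x, hx⟩
    exact h2 ⟨x, by rw [hw, hx]; ring⟩
  have hden : ¬ (p : ℤ) ∣ (α.den : ℤ) := by
    intro h
    have h3 : p ∣ α.den := by exact_mod_cast h
    have := Nat.le_of_dvd α.den_pos h3
    omega
  have hpv : ¬ (p : ℤ) ∣ (v : ℤ) := by
    intro h
    have h3 : (p : ℤ) ∣ u * α.den := by
      have h4 : (p : ℤ) ∣ u * α.den - α.num * v := ⟨w, hw⟩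
      have h5 := h4.add (h.mul_left α.num)
      rwa [sub_add_cancel] at h5
    rcases hpp.dvd_or_dvd h3 with h4 | h4
    · have h5 := huv.isUnit_of_dvd' h4 h
      exact hpp.not_isUnit h5
    · exact hden h4
  have hvC : (v : ℂ) ≠ 0 := by exact_mod_cast hv.ne'
  have hdC : (α.den : ℂ) ≠ 0 := by exact_mod_cast α.den_pos.ne'
  have h3 : ((u : ℂ) / v - (α : ℂ)) * ((v : ℂ) * α.den) = (p : ℂ) * w := by
    have h4 : (α : ℂ) = α.num / α.den := by
      conv_lhs => rw [← Rat.num_div_den α]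
      push_cast
      rfl
    rw [h4, sub_mul]
    have h5 : (u : ℂ) / v * ((v : ℂ) * α.den) = u * α.den := by field_simp
    have h6 : (α.num : ℂ) / α.den * ((v : ℂ) * α.den) = α.num * v := by field_simp
    rw [h5, h6]
    exact_mod_cast hw
  have h4 := congrArg V.valuation h3
  have hv1 : V.valuation ((v : ℕ) : ℂ) = 1 := by
    have := Pool.Agent.W466.ZP.int_unit V hp hV (v : ℤ) hpv
    exact_mod_cast this
  have hd1 : V.valuation ((α.den : ℕ) : ℂ) = 1 := by
    have := Pool.Agent.W466.ZP.int_unit V hp hV (α.den : ℤ) hden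
    exact_mod_cast this
  rw [map_mul, map_mul, map_mul, hv1, hd1, Pool.Agent.W466.ZP.int_unit V hp hV w hwp, mul_one,
    mul_one, mul_one] at h4
  exact h4

/-- The members with a rational parameter. -/
theorem ratP [Finite κ]
    (F : κ → MvPolynomial (Coord r q ⊕ Fin N) (Polynomial (algebraicClosure ℚ ℂ)))
    (D : Finset ℚ) (m : ℕ) (hgen : GenericP m (fun j => (F j).support) (orders F D)) :
    ∃ C : ℝ, ∀ B : ℕ, 1 ≤ B → ∀ v : ℕ, 1 ≤ v → v ≤ B →
      ({u : ℤ | |u| ≤ B ∧ IsCoprime u (v : ℤ) ∧ ¬ NoAtypicalP m (MemberP F ((u : ℂ) / v) :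
        ∀ s : Fin 2 ⊕ Fin r → ℂ, (Fin q → (curve (s (Sum.inl 0)) (s (Sum.inl 1))).Point) →
          Prop)}.ncard : ℝ) ≤ C * Real.sqrt B := by
  classical
  obtain ⟨P₀, hden, hP₀⟩ := near_large F D
  obtain ⟨C, hC, hcount⟩ := count P₀
  let Y : ℚ → ℕ := fun α => α.den + α.num.natAbs
  refine ⟨∑ α ∈ D, (1 + 2 * (C * Real.sqrt (Y α))), fun B hB v hv hvB => ?_⟩
  -- the exceptional set
  let w : ℚ → ℤ → ℤ := fun α u => u * α.den - α.num * v
  have hwinj : ∀ α, Function.Injective (w α) := by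
    intro α u u' h
    have h1 : u * (α.den : ℤ) = u' * α.den := by
      have : u * (α.den : ℤ) - α.num * v = u' * α.den - α.num * v := h
      linarith
    exact mul_right_cancel₀ (by exact_mod_cast α.den_pos.ne') h1
  let A : ℚ → Finset ℕ := fun α => (Finset.Icc 1 (B * Y α)).filter fun u =>
    ∀ p ∈ Finset.range (B * Y α + 1), p.Prime → P₀ < p → p ∣ u → p ^ 2 ∣ u
  let Bad : ℚ → Finset ℤ := fun α => insert 0 ((A α).image (fun n : ℕ => (n : ℤ)) ∪
    (A α).image (fun n : ℕ => -(n : ℤ)))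
  have hsub : {u : ℤ | |u| ≤ B ∧ IsCoprime u (v : ℤ) ∧ ¬ NoAtypicalP m (MemberP F ((u : ℂ) / v) :
        ∀ s : Fin 2 ⊕ Fin r → ℂ, (Fin q → (curve (s (Sum.inl 0)) (s (Sum.inl 1))).Point) →
          Prop)} ⊆ ⋃ α ∈ D, w α ⁻¹' (Bad α : Set ℤ) := by
    rintro u ⟨huB, huv, hbad⟩
    by_contra hcon
    simp only [Set.mem_iUnion, not_exists] at hcon
    apply hbad
    have hprime : ∀ α : {α // α ∈ D}, ∃ p : ℕ, p.Prime ∧ P₀ < p ∧ (p : ℤ) ∣ w α u ∧
        ¬ (p : ℤ) ^ 2 ∣ w α u := by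
      intro α
      by_contra hno
      push Not at hno
      apply hcon α α.2
      by_cases h0 : w α u = 0
      · change w α u ∈ (Bad α : Set ℤ)
        rw [h0]
        exact Finset.mem_coe.2 (Finset.mem_insert_self _ _)
      have hle : (w α u).natAbs ≤ B * Y α := by
        have h1 : |w α u| ≤ (B * Y α : ℕ) := by
          calc |w α u| ≤ |u * ((α : ℚ).den : ℤ)| + |(α : ℚ).num * v| := abs_sub _ _
            _ = |u| * (α : ℚ).den + |(α : ℚ).num| * v := by
                rw [abs_mul, abs_mul, Nat.abs_cast, Nat.abs_cast]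
            _ ≤ B * (α : ℚ).den + |(α : ℚ).num| * B := by
                have h2 : (v : ℤ) ≤ B := by exact_mod_cast hvB
                gcongr
            _ = (B * Y α : ℕ) := by
                simp only [Y]
                push_cast
                ring
        have h2 : ((w α u).natAbs : ℤ) ≤ (B * Y α : ℕ) := by rwa [Int.natCast_natAbs]
        exact_mod_cast h2
      have hmem : (w α u).natAbs ∈ A α := by
        refine Finset.mem_filter.2 ⟨Finset.mem_Icc.2 ⟨Int.natAbs_pos.2 h0, hle⟩,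
          fun p _ hp hP hpd => ?_⟩
        have h3 := hno p hp hP (Int.natCast_dvd.2 hpd)
        have h4 : ((p ^ 2 : ℕ) : ℤ) ∣ w α u := by
          push_cast
          exact h3
        exact Int.natCast_dvd.1 h4
      change w α u ∈ (Bad α : Set ℤ)
      refine Finset.mem_coe.2 (Finset.mem_insert_of_mem (Finset.mem_union.2 ?_))
      rcases le_total 0 (w α u) with h5 | h5
      · exact Or.inl (Finset.mem_image.2 ⟨_, hmem, Int.natAbs_of_nonneg h5⟩)
      · refine Or.inr (Finset.mem_image.2 ⟨_, hmem, ?_⟩)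
        rw [Int.ofNat_natAbs_of_nonpos h5, neg_neg]
    choose p hp hpP hp1 hp2 using hprime
    refine coreP m (fun j => (F j).support)
      (fun j β => Polynomial.aeval ((u : ℂ) / v) ((F j).coeff β)) (orders F D) hgen p hp
      fun α j β hβ V hV => ?_
    exact hP₀ (p α) (hp α) (hpP α) V hV α _ (val_near (hp α) hV hv huv α
      (lt_of_le_of_lt (hden α α.2) (hpP α)) (hp1 α) (hp2 α)) j β hβ
  have hfin : (⋃ α ∈ D, w α ⁻¹' (Bad α : Set ℤ)).Finite :=
    D.finite_toSet.biUnion fun α _ => (Bad α).finite_toSet.preimage (hwinj α).injOn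
  have hBad : ∀ α, ((w α ⁻¹' (Bad α : Set ℤ)).ncard : ℝ) ≤
      (1 + 2 * (C * Real.sqrt (Y α))) * Real.sqrt B := by
    intro α
    have h1 : (w α ⁻¹' (Bad α : Set ℤ)).ncard ≤ (Bad α).card := by
      have h3 : (w α ⁻¹' (Bad α : Set ℤ)).ncard = ((w α) '' (w α ⁻¹' (Bad α : Set ℤ))).ncard :=
        (Set.ncard_image_of_injective _ (hwinj α)).symm
      rw [h3, ← Set.ncard_coe_finset]
      exact Set.ncard_le_ncard (Set.image_preimage_subset _ _) (Bad α).finite_toSet
    have h2 : (Bad α).card ≤ 1 + 2 * (A α).card := by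
      calc (Bad α).card ≤ _ + 1 := Finset.card_insert_le _ _
        _ ≤ ((A α).image (fun n : ℕ => (n : ℤ))).card +
            ((A α).image (fun n : ℕ => -(n : ℤ))).card + 1 := by
              gcongr
              exact Finset.card_union_le _ _
        _ ≤ (A α).card + (A α).card + 1 := by
              gcongr <;> exact Finset.card_image_le
        _ = 1 + 2 * (A α).card := by ring
    have h3 := hcount (B * Y α)
    have h4 : (1 : ℝ) ≤ Real.sqrt B := by
      rw [Real.one_le_sqrt]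
      exact_mod_cast hB
    calc ((w α ⁻¹' (Bad α : Set ℤ)).ncard : ℝ) ≤ ((1 + 2 * (A α).card : ℕ) : ℝ) := by
          exact_mod_cast h1.trans h2
      _ = 1 + 2 * ((A α).card : ℝ) := by push_cast; rfl
      _ ≤ 1 + 2 * (C * Real.sqrt ((B * Y α : ℕ) : ℝ)) := by gcongr
      _ = 1 + 2 * (C * (Real.sqrt B * Real.sqrt (Y α))) := by
          rw [Nat.cast_mul, Real.sqrt_mul (Nat.cast_nonneg _)]
      _ ≤ Real.sqrt B + 2 * (C * (Real.sqrt B * Real.sqrt (Y α))) := by gcongr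
      _ = (1 + 2 * (C * Real.sqrt (Y α))) * Real.sqrt B := by ring
  calc _ ≤ ((⋃ α ∈ D, w α ⁻¹' (Bad α : Set ℤ)).ncard : ℝ) := by
        exact_mod_cast Set.ncard_le_ncard hsub hfin
    _ ≤ ∑ α ∈ D, ((w α ⁻¹' (Bad α : Set ℤ)).ncard : ℝ) := by
        exact_mod_cast Finset.set_ncard_biUnion_le D _
    _ ≤ ∑ α ∈ D, (1 + 2 * (C * Real.sqrt (Y α))) * Real.sqrt B :=
        Finset.sum_le_sum fun α _ => hBad α
    _ = (∑ α ∈ D, (1 + 2 * (C * Real.sqrt (Y α)))) * Real.sqrt B := by rw [Finset.sum_mul]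

end Pool.Agent.R424.PT
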