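import Pool.Agent.R424.PT.Main

/-!
Systems with integral coefficients in a residue class (helper file).
-/

set_option autoImplicit false

namespace Pool.Agent.R424.PT

open MvPolynomial Pool.Agent.R424.TG

/-- Integers `c = b p^e`, `b` prime to `p`, have the order `e` at all places above `p`. -/
theorem ordAt_int {p : ℕ} (hp : p.Prime) {c b : ℤ} {e : ℕ} (hb : ¬ (p : ℤ) ∣ b)
    (hc : c = b * (p : ℤ) ^ e) : OrdAt p (c : ℂ) e := by
  intro V hV
  rw [hc]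
  push_cast
  rw [map_mul, map_pow, Pool.Agent.W466.ZP.int_unit V hp hV b hb, one_mul]

theorem residueP {κ : Type} [Finite κ] {r q N m M : ℕ}
    (supp : κ → Finset ((Coord r q ⊕ Fin N) →₀ ℕ))
    (e : Fin M → κ → ((Coord r q ⊕ Fin N) →₀ ℕ) → ℕ) (hgen : GenericP m supp e) (Q₀ : ℕ)
    (hQ₀ : 0 < Q₀) :
    ∃ Q : ℕ, 0 < Q ∧ Q.Coprime Q₀ ∧ ∃ c₀ : κ → ((Coord r q ⊕ Fin N) →₀ ℕ) → ℤ,
      ∀ c : κ → ((Coord r q ⊕ Fin N) →₀ ℕ) → ℤ,
        (∀ j, ∀ β ∈ supp j, (Q : ℤ) ∣ c j β - c₀ j β) →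
        NoAtypicalP m (OnX supp fun j β => ((c j β : ℤ) : ℂ)) := by
  classical
  have := Fintype.ofFinite κ
  let p : Fin M → ℕ := fun l => Nat.nth Nat.Prime (l + Q₀)
  have hp : ∀ l, (p l).Prime := fun l => Nat.prime_nth_prime _
  have hpinj : Function.Injective p := fun l l' h => by
    have h1 := Nat.nth_injective Nat.infinite_setOfPred_prime h
    exact Fin.ext (by omega)
  have hpQ : ∀ l, Q₀ < p l := fun l => by
    have h1 : (l : ℕ) + Q₀ + 2 ≤ p l := Nat.add_two_le_nth_prime _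
    omega
  let E : ℕ := ∑ l, ∑ q, ∑ β ∈ supp q, e l q β
  have hE : ∀ l q, ∀ β ∈ supp q, e l q β ≤ E := by
    intro l q β hβ
    calc e l q β ≤ ∑ β ∈ supp q, e l q β :=
          Finset.single_le_sum (f := fun β => e l q β) (fun _ _ => Nat.zero_le _) hβ
      _ ≤ ∑ q, ∑ β ∈ supp q, e l q β :=
          Finset.single_le_sum (f := fun q => ∑ β ∈ supp q, e l q β)
            (fun _ _ => Nat.zero_le _) (Finset.mem_univ q)
      _ ≤ E := Finset.single_le_sum (f := fun l => ∑ q, ∑ β ∈ supp q, e l q β)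
            (fun _ _ => Nat.zero_le _) (Finset.mem_univ l)
  refine ⟨∏ l, p l ^ (E + 1), Finset.prod_pos fun l _ => pow_pos (hp l).pos _, ?_,
    fun q β => ∏ l, (p l : ℤ) ^ e l q β, fun c hc => ?_⟩
  · refine Nat.Coprime.prod_left fun l _ => Nat.Coprime.pow_left _ ?_
    exact ((hp l).coprime_iff_not_dvd).2 fun h => absurd (Nat.le_of_dvd hQ₀ h) (not_le.2 (hpQ l))
  have key : ∀ l q, ∀ β ∈ supp q, ∃ b : ℤ, ¬ (p l : ℤ) ∣ b ∧ c q β = b * (p l : ℤ) ^ e l q β := by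
    intro l q β hβ
    obtain ⟨u, hu⟩ := hc q β hβ
    have h1 : ((∏ l, p l ^ (E + 1) : ℕ) : ℤ) =
        (p l : ℤ) ^ (E + 1) * ∏ l' ∈ Finset.univ.erase l, (p l' : ℤ) ^ (E + 1) := by
      push_cast
      exact (Finset.mul_prod_erase _ (fun l => (p l : ℤ) ^ (E + 1)) (Finset.mem_univ l)).symm
    have h2 : ∏ l, (p l : ℤ) ^ e l q β =
        (p l : ℤ) ^ e l q β * ∏ l' ∈ Finset.univ.erase l, (p l' : ℤ) ^ e l' q β :=
      (Finset.mul_prod_erase _ (fun l => (p l : ℤ) ^ e l q β) (Finset.mem_univ l)).symm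
    have h3 : (p l : ℤ) ^ (E + 1) = (p l : ℤ) ^ e l q β * (p l * (p l : ℤ) ^ (E - e l q β)) := by
      rw [← pow_succ', ← pow_add]
      congr 1
      have := hE l q β hβ
      omega
    refine ⟨∏ l' ∈ Finset.univ.erase l, (p l' : ℤ) ^ e l' q β + p l * ((p l : ℤ) ^ (E - e l q β) *
      ((∏ l' ∈ Finset.univ.erase l, (p l' : ℤ) ^ (E + 1)) * u)), ?_, ?_⟩
    · intro hdvd
      have h4 : (p l : ℤ) ∣ ∏ l' ∈ Finset.univ.erase l, (p l' : ℤ) ^ e l' q β :=
        (dvd_add_left (Dvd.intro _ rfl)).1 hdvd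
      have hpp : Prime (p l : ℤ) := Nat.prime_iff_prime_int.1 (hp l)
      obtain ⟨l', hl', h5⟩ := (hpp.dvd_finsetProd_iff _).1 h4
      have h6 := hpp.dvd_of_dvd_pow h5
      have h7 : p l ∣ p l' := by exact_mod_cast h6
      have h8 := (Nat.prime_dvd_prime_iff_eq (hp l) (hp l')).1 h7
      exact (Finset.ne_of_mem_erase hl') (hpinj h8).symm
    · have h4 : c q β = ∏ l, (p l : ℤ) ^ e l q β + ((∏ l, p l ^ (E + 1) : ℕ) : ℤ) * u := by
        rw [← hu]
        ring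
      rw [h4, h1, h2, h3]
      ring
  refine coreP m supp _ e hgen p hp fun l j β hβ => ?_
  obtain ⟨b, hb, hcb⟩ := key l j β hβ
  exact ordAt_int (hp l) hb hcb

end Pool.Agent.R424.PT
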