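import Pool.Agent.Results.MP_28d749_ag.RandomMultisections
import Pool.Agent.R424.TG.Loc

/-!
Places of `ℂ` above a prime number with rational values, and prescribed values of algebraically
independent numbers (helper file).
-/

set_option autoImplicit false

namespace Pool.Agent.R424.PT

open MvPolynomial Pool.Agent.R424.TG

/-- All values are rational multiples of the value of `p`. -/
def RatVal (V : ValuationSubring ℂ) (p : ℕ) : Prop :=
  ∀ z : ℂ, z ≠ 0 → ∃ n : ℕ, 0 < n ∧ ∃ k : ℤ, V.valuation z ^ n = V.valuation (p : ℂ) ^ k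

theorem exists_val_rat {ι : Type*} (y : ι → ℂ) (hy : AlgebraicIndependent ℚ y) {p : ℕ}
    (hp : p.Prime) : ∃ V : ValuationSubring ℂ, (p : ℂ) ∈ V.nonunits ∧
      (∀ i, V.valuation (y i) = 1) ∧ RatVal V p := by
  classical
  have hyZ : AlgebraicIndependent ℤ y := hy.restrictScalars (Int.cast_injective (α := ℚ))
  have hr : AlgebraicIndepOn ℤ id (Set.range y) := hyZ.coe_range
  obtain ⟨s, hys, hs⟩ := exists_isTranscendenceBasis_superset hr
  have : Algebra.IsAlgebraic ℤ ℚ := IsLocalization.isAlgebraic ℚ (nonZeroDivisors ℤ)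
  have hsQ : AlgebraicIndependent ℚ ((↑) : s → ℂ) := hs.1.extendScalars ℚ
  have halg : Algebra.IsAlgebraic (Algebra.adjoin ℤ (Set.range ((↑) : s → ℂ))) ℂ := hs.isAlgebraic
  obtain ⟨V, hV1, hV2, hV3⟩ := Pool.Agent.W466.ZP.exists_gauss ((↑) : s → ℂ) hsQ hp
  set v := V.valuation with hv
  have hp0 : v (p : ℂ) ≠ 0 := (Valuation.ne_zero_iff _).2 (by exact_mod_cast hp.ne_zero)
  have hval : ∀ (N : ℕ) (f : MvPolynomial s ℤ) (m : s →₀ ℕ), (f.coeff m).natAbs ≤ N →
      f.coeff m ≠ 0 → ∃ k : ℕ, v (aeval ((↑) : s → ℂ) f) = v (p : ℂ) ^ k := by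
    intro N
    induction N with
    | zero =>
      intro f m h1 h2
      exact absurd (Int.natAbs_eq_zero.1 (Nat.le_zero.1 h1)) h2
    | succ N ih =>
      intro f m h1 h2
      by_cases hd : C (p : ℤ) ∣ f
      · obtain ⟨f', rfl⟩ := hd
        have h3 : (C (p : ℤ) * f').coeff m = p * f'.coeff m := by rw [coeff_C_mul]
        rw [h3] at h1 h2
        have h4 : f'.coeff m ≠ 0 := right_ne_zero_of_mul h2
        have h5 : (f'.coeff m).natAbs ≤ N := by
          rw [Int.natAbs_mul, Int.natAbs_natCast] at h1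
          have h6 := Int.natAbs_pos.2 h4
          have h7 : 2 * (f'.coeff m).natAbs ≤ p * (f'.coeff m).natAbs :=
            Nat.mul_le_mul_right _ hp.two_le
          omega
        obtain ⟨k, hk⟩ := ih f' m h5 h4
        refine ⟨k + 1, ?_⟩
        rw [map_mul, aeval_C, map_mul, hk, pow_succ']
        simp
      · exact ⟨0, by rw [pow_zero]; exact hV3 f hd⟩
  have hcoef : ∀ a : Algebra.adjoin ℤ (Set.range ((↑) : s → ℂ)), a ≠ 0 →
      ∃ k : ℕ, v (a : ℂ) = v (p : ℂ) ^ k := by
    intro a ha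
    have h2 : (a : ℂ) ∈ (aeval ((↑) : s → ℂ) : MvPolynomial s ℤ →ₐ[ℤ] ℂ).range := by
      rw [← Algebra.adjoin_range_eq_range_aeval]
      exact a.2
    obtain ⟨f, hf⟩ := h2
    have hf0 : f ≠ 0 := by
      rintro rfl
      apply ha
      apply Subtype.ext
      rw [← hf]
      simp
    obtain ⟨m, hm⟩ : ∃ m, f.coeff m ≠ 0 := by
      by_contra h
      push Not at h
      exact hf0 (MvPolynomial.ext _ _ fun m => by rw [h m, coeff_zero])
    obtain ⟨k, hk⟩ := hval _ f m le_rfl hm
    exact ⟨k, by rw [← hf]; exact hk⟩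
  refine ⟨V, hV1, fun i => ?_, fun z hz => ?_⟩
  · have h1 := hV3 (X ⟨y i, hys ⟨i, rfl⟩⟩) (by
      intro hd
      rw [C_dvd_iff_dvd_coeff] at hd
      have h2 := hd (Finsupp.single ⟨y i, hys ⟨i, rfl⟩⟩ 1)
      rw [coeff_X, if_pos rfl] at h2
      have h3 : p ∣ 1 := by exact_mod_cast h2
      exact hp.one_lt.ne' (Nat.dvd_one.1 h3))
    rwa [aeval_X] at h1
  · obtain ⟨f, hf0, hf⟩ := halg.1 z
    have hsum : ∑ i ∈ f.support, ((f.coeff i : ℂ)) * z ^ i = 0 := by
      rw [Polynomial.aeval_def, Polynomial.eval₂_eq_sum, Polynomial.sum_def] at hf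
      exact hf
    have hne : ∀ i ∈ f.support, ((f.coeff i : ℂ)) * z ^ i ≠ 0 := by
      intro i hi
      refine mul_ne_zero (fun h => ?_) (pow_ne_zero _ hz)
      exact (Polynomial.mem_support_iff.1 hi) (Subtype.ext h)
    obtain ⟨i, hi, j, hj, hij, heq, -⟩ := Pool.Agent.Y199.ZF.exists_pair_val V f.support
      (Polynomial.support_nonempty.2 hf0) (fun i => ((f.coeff i : ℂ)) * z ^ i) hne hsum
    obtain ⟨ki, hki⟩ := hcoef _ (Polynomial.mem_support_iff.1 hi)
    obtain ⟨kj, hkj⟩ := hcoef _ (Polynomial.mem_support_iff.1 hj)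
    have hvz : v z ≠ 0 := (Valuation.ne_zero_iff _).2 hz
    have h1 : v (p : ℂ) ^ ki * v z ^ i = v (p : ℂ) ^ kj * v z ^ j := by
      have h2 := heq
      simp only [map_mul, map_pow] at h2
      rwa [← hv, hki, hkj] at h2
    have key : ∀ (i j ki kj : ℕ), i < j → v (p : ℂ) ^ ki * v z ^ i = v (p : ℂ) ^ kj * v z ^ j →
        ∃ n : ℕ, 0 < n ∧ ∃ k : ℤ, v z ^ n = v (p : ℂ) ^ k := by
      intro i j ki kj hlt h
      refine ⟨j - i, by omega, (ki : ℤ) - kj, ?_⟩
      rw [zpow_sub₀ hp0, zpow_natCast, zpow_natCast, eq_div_iff (pow_ne_zero _ hp0)]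
      have h2 : v z ^ j = v z ^ (j - i) * v z ^ i := by
        rw [← pow_add]
        congr 1
        omega
      rw [h2, ← mul_assoc] at h
      have h3 := mul_right_cancel₀ (pow_ne_zero i hvz) h
      rw [mul_comm]
      exact h3.symm
    rcases lt_or_gt_of_ne hij with hlt | hlt
    · exact key i j ki kj hlt h1
    · exact key j i kj ki hlt h1.symm

theorem scale_indep {L T : Type*} [Field L] [Algebra L ℂ] {x : T → ℂ}
    (hx : AlgebraicIndependent L x) (c : T → L) (hc : ∀ t, c t ≠ 0) :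
    AlgebraicIndependent L fun t => algebraMap L ℂ (c t) * x t := by
  have h1 : AlgebraicIndependent L (fun t => (C (c t) * X t : MvPolynomial T L)) := by
    let F : MvPolynomial T L →ₐ[L] MvPolynomial T L :=
      aeval (fun t => (C (c t) * X t : MvPolynomial T L))
    let G : MvPolynomial T L →ₐ[L] MvPolynomial T L :=
      aeval (fun t => (C (c t)⁻¹ * X t : MvPolynomial T L))
    have h2 : G.comp F = AlgHom.id L _ := by
      refine algHom_ext fun t => ?_
      change G (F (X t)) = X t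
      have h6 : F (X t) = C (c t) * X t := aeval_X _ t
      have h7 : G (X t) = C (c t)⁻¹ * X t := aeval_X _ t
      have h3 : G (C (c t)) = C (c t) := by
        rw [← algebraMap_eq, AlgHom.commutes]
      rw [h6, map_mul, h3, h7, ← mul_assoc, ← C_mul, mul_inv_cancel₀ (hc t), C_1, one_mul]
    exact Function.LeftInverse.injective (g := G) fun f => DFunLike.congr_fun h2 f
  have h5 := hx.aeval_of_algebraicIndependent h1
  have h6 : (fun t => aeval x (C (c t) * X t : MvPolynomial T L)) =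
      fun t => algebraMap L ℂ (c t) * x t := by
    funext t
    rw [map_mul, aeval_X, aeval_C]
  rw [h6] at h5
  exact h5

/-- A place above `p` with rational values, at which given algebraically independent numbers have
given values. -/
theorem exists_val_prescribed {T : Type*} (x : T → ℂ) (hx : AlgebraicIndependent ℚ x) {p : ℕ}
    (hp : p.Prime) (n : T → ℕ) (hn : ∀ t, 0 < n t) (k : T → ℤ) :
    ∃ V : ValuationSubring ℂ, (p : ℂ) ∈ V.nonunits ∧
      (∀ t, V.valuation (x t) ^ n t = V.valuation (p : ℂ) ^ k t) ∧ RatVal V p := by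
  classical
  have halg : Algebra.IsAlgebraic ℚ (algebraicClosure ℚ ℂ) := algebraicClosure.isAlgebraic ℚ ℂ
  have hxL : AlgebraicIndependent (algebraicClosure ℚ ℂ) x :=
    hx.extendScalars (algebraicClosure ℚ ℂ)
  have hroot : ∀ t, ∃ z : ℂ, z ^ n t = (p : ℂ) ^ k t := fun t =>
    IsAlgClosed.exists_pow_nat_eq _ (hn t)
  choose z hz using hroot
  have hpC : (p : ℂ) ≠ 0 := by exact_mod_cast hp.ne_zero
  have hz0 : ∀ t, z t ≠ 0 := by
    intro t h
    have h1 := hz t
    rw [h, zero_pow (hn t).ne'] at h1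
    exact zpow_ne_zero _ hpC h1.symm
  have hzalg : ∀ t, IsAlgebraic ℚ (z t) := by
    intro t
    refine IsAlgebraic.of_pow (hn t) ?_
    rw [hz t]
    have h1 : IsAlgebraic ℚ (p : ℂ) := isAlgebraic_natCast p
    cases' k t with a a
    · rw [Int.ofNat_eq_natCast, zpow_natCast]
      exact h1.pow a
    · rw [zpow_negSucc]
      exact (h1.pow _).inv
  have hzL : ∀ t, z t ∈ algebraicClosure ℚ ℂ := fun t => by
    rw [mem_algebraicClosure_iff]
    exact hzalg t
  have h1 := scale_indep hxL (fun t => (⟨z t, hzL t⟩ : algebraicClosure ℚ ℂ)⁻¹) (fun t => by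
    refine inv_ne_zero fun h => hz0 t ?_
    exact congrArg Subtype.val h)
  have h2 : AlgebraicIndependent ℚ fun t => algebraMap (algebraicClosure ℚ ℂ) ℂ ((⟨z t, hzL t⟩ : algebraicClosure ℚ ℂ)⁻¹) * x t :=
    h1.restrictScalars (algebraMap ℚ (algebraicClosure ℚ ℂ)).injective
  obtain ⟨V, hV1, hV2, hV3⟩ := exists_val_rat _ h2 hp
  refine ⟨V, hV1, fun t => ?_, hV3⟩
  have h3 := hV2 t
  rw [map_mul, map_inv₀] at h3
  have h4 : V.valuation (algebraMap (algebraicClosure ℚ ℂ) ℂ (⟨z t, hzL t⟩ : algebraicClosure ℚ ℂ)) = V.valuation (z t) := rfl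
  rw [map_inv₀, h4] at h3
  have hvz : V.valuation (z t) ≠ 0 := (Valuation.ne_zero_iff _).2 (hz0 t)
  have h5 : V.valuation (x t) = V.valuation (z t) := by
    have h6 := congrArg (fun r => V.valuation (z t) * r) h3
    simp only [mul_one] at h6
    rwa [mul_inv_cancel_left₀ hvz] at h6
  rw [h5, ← map_pow, hz t, map_zpow₀]

end Pool.Agent.R424.PT
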